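import Mathlib
import Pool.Agent.TH744.LR.Main
import Pool.Agent.H287R3.LR.Graph

set_option autoImplicit false

/-!
# Chromatic number and rank for composed graphs

Let `X 1, …, X k` be finite sets and let `f i` be an arbitrary relation on `X i` (for instance the
adjacency of a graph). A graph on the product of the `X i` is composed of these relations if the
adjacency of `x` and `y` is an arbitrary Boolean function `g` of the `k` bits `f i (x i) (y i)`
(for instance the tensor product, the co-normal product and all Boolean combinations of them;
lexicographic products if there are two relations, adjacency and equality, on each factor, which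
can be regarded as relations on two copies). If each relation `f i` is nondegenerate (its matrix has
at least three different rows or columns) and has a protocol with `K (log₂ rank f i + 1)^C` bits,
then `log₂ χ ≤ K 3^C (log₂ r)^(max(C,1)+3)` for the composed graph, `r` being the real rank of its
adjacency matrix; the bound does not depend on `g` and on the number of factors.

Proof: the protocol of the starting files for block compositions (`Pool.Agent.TH744.LR.main`, handed
in for communication matrices) gives a colouring: the colour of `x` is the transcript for `(x, x)`.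
-/

namespace Pool.Agent.Results.MP_3bd889_lc.BlockCompositionGraphs

open Pool.Agent.H287R3.LR

/-- `F` has a deterministic two-party protocol with exactly `c` bits: `t` is the transcript so far,
`owner t` says who speaks, and the answer is a function of the transcript. -/
def HasProtocol {X Y : Type} (F : X → Y → Bool) (c : ℕ) : Prop :=
  ∃ (owner : List Bool → Bool) (a : List Bool → X → Bool)
      (b : List Bool → Y → Bool) (out : List Bool → Bool),
      ∀ x y, out (Nat.iterate
        (fun t : List Bool => t ++ [if owner t then a t x else b t y]) c []) = F x y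

/-- `log₂` of the real rank of the matrix of `F` (`0` if the rank is `0`) -/
noncomputable def logRank {X Y : Type} [Fintype X] [Fintype Y] (F : X → Y → Bool) : ℝ :=
  Real.logb 2 ((Matrix.of (fun (x : X) (y : Y) => if F x y then (1 : ℝ) else 0)).rank : ℝ)

/-- the matrix of `f` has at least three distinct rows or at least three distinct columns -/
def Nondegenerate {X Y : Type} (f : X → Y → Bool) : Prop :=
  (∃ x₁ x₂ x₃, f x₁ ≠ f x₂ ∧ f x₁ ≠ f x₃ ∧ f x₂ ≠ f x₃) ∨
  (∃ y₁ y₂ y₃, (fun x => f x y₁) ≠ (fun x => f x y₂) ∧ (fun x => f x y₁) ≠ (fun x => f x y₃) ∧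
    (fun x => f x y₂) ≠ (fun x => f x y₃))

theorem result (K C k : ℕ) (X : Fin k → Type) [∀ i, Fintype (X i)]
    (f : ∀ i, X i → X i → Bool) (g : (Fin k → Bool) → Bool) (hf : ∀ i, Nondegenerate (f i))
    (hK : ∀ i, ∃ c : ℕ, HasProtocol (f i) c ∧ (c : ℝ) ≤ K * (logRank (f i) + 1) ^ C)
    (G : SimpleGraph (∀ i, X i)) [DecidableRel G.Adj]
    (hG : ∀ x y, G.Adj x y ↔ g (fun i => f i (x i) (y i)) = true) :
    Real.logb 2 (G.chromaticNumber.toNat : ℝ) ≤
      K * 3 ^ C * (Real.logb 2 ((G.adjMatrix ℝ).rank : ℝ)) ^ (max C 1 + 3) := by
  classical
  have hcomp : Pool.Agent.TH744.LR.comp (fun U : Finset (Fin k) => g (fun i => decide (i ∈ U)))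
        (Pool.Agent.TH744.LR.inner f) = fun x y => decide (G.Adj x y) := by
    funext x y
    rw [Bool.eq_iff_iff, decide_eq_true_iff, hG]
    simp only [Pool.Agent.TH744.LR.comp]
    have e : (fun i => decide (i ∈ Finset.univ.filter
        (fun i => Pool.Agent.TH744.LR.inner f i x y = true))) = fun i => f i (x i) (y i) := by
      funext i
      rw [Bool.eq_iff_iff, decide_eq_true_iff, Finset.mem_filter]
      simp [Pool.Agent.TH744.LR.inner]
    rw [e]
  have hm : (Matrix.of (fun (x : ∀ i, X i) (y : ∀ i, X i) =>
      if (decide (G.Adj x y)) then (1 : ℝ) else 0)) = G.adjMatrix ℝ := by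
    ext u v
    rw [SimpleGraph.adjMatrix_apply, Matrix.of_apply]
    simp
  have hmain : ∃ c : ℕ, HasProtocol (fun x y => decide (G.Adj x y)) c ∧
      (c : ℝ) ≤ K * 3 ^ C * (logRank (fun x y => decide (G.Adj x y))) ^ (max C 1 + 3) := by
    rcases Nat.eq_zero_or_pos C with rfl | hC
    · have hq2 : ∀ i, Pool.Agent.TH744.LR.Prot (f i) K := by
        intro i
        obtain ⟨c, hc, hcK⟩ := hK i
        rw [pow_zero, mul_one] at hcK
        exact Pool.Agent.TH744.LR.Prot.mono hc (by exact_mod_cast hcK)
      have h := Pool.Agent.TH744.LR.main_bounded f hf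
        (fun U : Finset (Fin k) => g (fun i => decide (i ∈ U))) K hq2
      rw [hcomp] at h
      obtain ⟨c, hc, hcK⟩ := h
      refine ⟨c, hc, ?_⟩
      rw [pow_zero, mul_one]
      exact hcK
    · have h := Pool.Agent.TH744.LR.main f hf
        (fun U : Finset (Fin k) => g (fun i => decide (i ∈ U))) K C hC hK
      rw [hcomp] at h
      rw [max_eq_left hC]
      exact h
  obtain ⟨c, hc, hcK⟩ := hmain
  have h1 := logb_chromatic_le G (c := c) hc
  refine h1.trans (hcK.trans (le_of_eq ?_))
  unfold logRank
  rw [hm]

end Pool.Agent.Results.MP_3bd889_lc.BlockCompositionGraphs
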