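import Pool.Agent.Q330.LRT.Core
import Pool.Agent.Q274.LR.Colour

/-!
# Chromatic number, rank and nested tests

A graph whose adjacency matrix, of real rank `r`, is computed by a decision tree of cost `κ` with
nested tests (`a v ≤ b w`, for instance) and tests of bounded twin-width satisfies
`log₂ χ = O ((κ + log r) log r)`. In particular this holds, with `κ = 2 t + 2`, for the intersection
graphs of boxes in dimension `t`, where `t` may grow with the rank, and, with `κ = t + 2`, for all
graphs whose adjacency, for different vertices, is a Boolean function of `t` nested matrices.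

Idea of the proof. Nested matrices are constant on the product of at least half of any rows and at
least half of any columns. So every rectangle contains a large rectangle on which the adjacency matrix
is constant, the recursion of Nisan and Wigderson gives a protocol, and the transcripts of the pairs
`(v, v)` are a proper colouring.
-/

set_option autoImplicit false

namespace Pool.Agent.Results.MP_3bd889_lc.NestedTests

open Pool.Agent.H630R2.LR Pool.Agent.Q330.LRT

/-- the bound -/
noncomputable def bound {V : Type} [Fintype V] (G : SimpleGraph V) [DecidableRel G.Adj]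
    (κ : ℕ) : ℕ :=
  2 ^ (1 + 2 * Nat.clog 2 (2 ^ (κ + 1) * (G.adjMatrix ℝ).rank + 3) *
    Nat.clog 2 ((G.adjMatrix ℝ).rank + 1))

theorem colour {V : Type} [Fintype V] (G : SimpleGraph V) [DecidableRel G.Adj] (κ : ℕ)
    (h : Decides κ fun v w => decide (G.Adj v w)) : G.Colorable (bound G κ) := by
  have h1 := proto_tree h
  have e1 : comm (fun u v : V => decide (G.Adj u v)) = G.adjMatrix ℝ := by
    ext u v
    show (if decide (G.Adj u v) = true then (1 : ℝ) else 0) = _
    rw [SimpleGraph.adjMatrix_apply]
    simp
  rw [e1] at h1
  exact Pool.Agent.Q274.LR.colorable_of_proto G (by simp) h1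

/-- A matrix which is computed by a tree off the diagonal. -/
theorem off_diagonal {V : Type} [Fintype V] (G : SimpleGraph V) [DecidableRel G.Adj] (κ : ℕ)
    (H : V → V → Bool) (hH : Decides κ H) (h : ∀ v w, v ≠ w → (G.Adj v w ↔ H v w = true)) :
    Decides (κ + 2) fun v w => decide (G.Adj v w) := by
  obtain ⟨e, he⟩ : ∃ e : V → ℕ, Function.Injective e :=
    ⟨fun v => (Fintype.equivFin V v : ℕ), fun v w hvw =>
      (Fintype.equivFin V).injective (Fin.ext hvw)⟩
  have n1 : Nested fun v w : V => decide (e v ≤ e w) := by
    intro v v'
    rcases le_total (e v) (e v') with h1 | h1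
    · right
      intro y hy
      exact decide_eq_true (h1.trans (of_decide_eq_true hy))
    · left
      intro y hy
      exact decide_eq_true (h1.trans (of_decide_eq_true hy))
  have n2 : Nested fun v w : V => decide (e w ≤ e v) := by
    intro v v'
    rcases le_total (e v) (e v') with h1 | h1
    · left
      intro y hy
      exact decide_eq_true ((of_decide_eq_true hy).trans h1)
    · right
      intro y hy
      exact decide_eq_true ((of_decide_eq_true hy).trans h1)
  have t1 := Decides.nested κ _ _ _ n2 (Decides.const κ false) hH
  have t2 := Decides.nested (1 + κ) _ _ _ n1 t1 (decides_mono hH (Nat.le_add_left κ 1))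
  have ec : 1 + (1 + κ) = κ + 2 := by omega
  rw [ec] at t2
  have ef : (fun v w : V => decide (G.Adj v w)) = fun v w : V =>
      if decide (e v ≤ e w) = true then
        (if decide (e w ≤ e v) = true then false else H v w) else H v w := by
    funext v w
    by_cases hvw : v = w
    · subst hvw
      simp
    · have h1 : decide (G.Adj v w) = H v w := by
        rw [Bool.eq_iff_iff, decide_eq_true_iff]
        exact h v w hvw
      have h2 : ¬ (e v ≤ e w ∧ e w ≤ e v) := fun h3 => hvw (he (le_antisymm h3.1 h3.2))
      rw [h1]
      by_cases h3 : e v ≤ e w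
      · have h4 : ¬ e w ≤ e v := fun h4 => h2 ⟨h3, h4⟩
        simp [h3, h4]
      · simp [h3]
  rw [ef]
  exact t2

/-- `r` is the real rank of the adjacency matrix and
`bound G κ = 2 ^ (1 + 2 ⌈log₂ (2 ^ (κ + 1) r + 3)⌉ ⌈log₂ (r + 1)⌉)`.
(1) A graph whose adjacency matrix is computed by a decision tree of cost `κ` with nested tests and
tests of bounded twin-width has chromatic number at most `bound G κ`.
(2) A graph in which the adjacency of two different vertices is a Boolean function of `t` nested
matrices has chromatic number at most `bound G (t + 2)`.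
(3) The intersection graph of boxes in dimension `t` (over any linear order) has chromatic number at
most `bound G (2 t + 2)`. -/
theorem result (V : Type) [Fintype V] (G : SimpleGraph V) [DecidableRel G.Adj] :
    (∀ κ : ℕ, (Decides κ fun v w => decide (G.Adj v w)) → G.Colorable (bound G κ)) ∧
    (∀ (t : ℕ) (Q : Fin t → V → V → Bool) (h : (Fin t → Bool) → Bool), (∀ i, Nested (Q i)) →
      (∀ v w, v ≠ w → (G.Adj v w ↔ h (fun i => Q i v w) = true)) →
      G.Colorable (bound G (t + 2))) ∧
    (∀ (L : Type) [LinearOrder L] (t : ℕ) (lo hi : Fin t → V → L),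
      (∀ v w, v ≠ w → (G.Adj v w ↔ ∀ i, lo i v ≤ hi i w ∧ lo i w ≤ hi i v)) →
      G.Colorable (bound G (2 * t + 2))) := by
  have part2 : ∀ (t : ℕ) (Q : Fin t → V → V → Bool) (h : (Fin t → Bool) → Bool),
      (∀ i, Nested (Q i)) → (∀ v w, v ≠ w → (G.Adj v w ↔ h (fun i => Q i v w) = true)) →
      G.Colorable (bound G (t + 2)) := by
    intro t Q h hQ hadj
    exact colour G _ (off_diagonal G t _ (decides_comb t Q hQ h) hadj)
  refine ⟨fun κ h => colour G κ h, part2, ?_⟩
  intro L _ t lo hi hadj
  -- the comparisons for the two ends of each interval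
  have hsum : ∃ Q : Fin (2 * t) → V → V → Bool, (∀ i, Nested (Q i)) ∧
      ∀ v w, (∀ i, Q i v w = true) ↔ ∀ i, lo i v ≤ hi i w ∧ lo i w ≤ hi i v := by
    refine ⟨fun j v w => if (j : ℕ) % 2 = 0 then
      decide (lo ⟨j / 2, by omega⟩ v ≤ hi ⟨j / 2, by omega⟩ w)
      else decide (lo ⟨j / 2, by omega⟩ w ≤ hi ⟨j / 2, by omega⟩ v), ?_, ?_⟩
    · intro j v v'
      by_cases hj : (j : ℕ) % 2 = 0
      · simp only [hj, if_true]
        rcases le_total (lo ⟨j / 2, by omega⟩ v) (lo ⟨j / 2, by omega⟩ v') with h1 | h1
        · right
          intro y hy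
          exact decide_eq_true (h1.trans (of_decide_eq_true hy))
        · left
          intro y hy
          exact decide_eq_true (h1.trans (of_decide_eq_true hy))
      · simp only [hj, if_false]
        rcases le_total (hi ⟨j / 2, by omega⟩ v) (hi ⟨j / 2, by omega⟩ v') with h1 | h1
        · left
          intro y hy
          exact decide_eq_true ((of_decide_eq_true hy).trans h1)
        · right
          intro y hy
          exact decide_eq_true ((of_decide_eq_true hy).trans h1)
    · intro v w
      constructor
      · intro h i
        have h1 := h ⟨2 * i, by omega⟩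
        have h2 := h ⟨2 * i + 1, by omega⟩
        have e1 : 2 * (i : ℕ) % 2 = 0 := by omega
        have e2 : ¬ (2 * (i : ℕ) + 1) % 2 = 0 := by omega
        have e3 : 2 * (i : ℕ) / 2 = i := by omega
        have e4 : (2 * (i : ℕ) + 1) / 2 = i := by omega
        simp only [e1, e2, e3, e4, if_true, if_false, decide_eq_true_iff] at h1 h2
        exact ⟨h1, h2⟩
      · intro h j
        have h1 := h ⟨j / 2, by omega⟩
        by_cases hj : (j : ℕ) % 2 = 0
        · simp only [hj, if_true]
          exact decide_eq_true h1.1
        · simp only [hj, if_false]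
          exact decide_eq_true h1.2
  obtain ⟨Q, hQ, hQiff⟩ := hsum
  classical
  refine part2 (2 * t) Q (fun b => decide (∀ i, b i = true)) hQ fun v w hvw => ?_
  rw [hadj v w hvw, decide_eq_true_iff]
  exact (hQiff v w).symm

end Pool.Agent.Results.MP_3bd889_lc.NestedTests
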