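import Mathlib
import Pool.Agent.H287R3.LR.Graph
import Pool.Agent.H630R2.LR.Bounds

set_option autoImplicit false

/-!
# Chromatic number and rank for graphs composed of Toeplitz graphs

A graph on `{0, ..., n - 1}` is a Toeplitz graph if the adjacency of `a` and `b` depends only on
`a - b`. Let the vertex set of the graph `G` be covered by the images of `t` maps `φ i` defined on
intervals `{0, ..., n i - 1}` such that the adjacency of `φ i a` and `φ i b` depends only on `a - b`
(and `i`); the adjacency between different pieces is arbitrary. Then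
`log₂ χ(G) ≤ log₂ t + 11 (log₂ r + 1)^5`, `r` being the real rank of the adjacency matrix of `G`; so
for `t` at most quasipolynomial in `r` the bound of the graph form of the log-rank conjecture holds.
For `t = 1` and an injective map these are the Toeplitz graphs themselves, which need not have any
symmetries besides the reflection.

Proof: a protocol for Toeplitz matrices (`Pool.Agent.H630R2.LR.final_hankel`, handed in for
communication matrices) gives a colouring of each piece: the colour is the transcript on the diagonal.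
-/

namespace Pool.Agent.Results.MP_3bd889_lc.ToeplitzGraphs

open Pool.Agent.H630R2.LR Pool.Agent.H287R3.LR

theorem logb_mono_nat {a b : ℕ} (h : a ≤ b) : Real.logb 2 (a : ℝ) ≤ Real.logb 2 (b : ℝ) := by
  rcases Nat.eq_zero_or_pos a with h0 | h0
  · rw [h0, Nat.cast_zero, Real.logb_zero]
    rcases Nat.eq_zero_or_pos b with h1 | h1
    · rw [h1, Nat.cast_zero, Real.logb_zero]
    · exact Real.logb_nonneg (by norm_num) (by exact_mod_cast h1)
  · exact Real.logb_le_logb_of_le (by norm_num) (by exact_mod_cast h0) (by exact_mod_cast h)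

theorem logb_nat_nonneg (a : ℕ) : 0 ≤ Real.logb 2 (a : ℝ) := by
  have := logb_mono_nat (Nat.zero_le a)
  rwa [Nat.cast_zero, Real.logb_zero] at this

/-- one piece -/
theorem piece {V : Type} [Fintype V] (G : SimpleGraph V) [DecidableRel G.Adj] (n : ℕ)
    (φ : Fin n → V) (hG : ∃ f : ℤ → Prop, ∀ a b, G.Adj (φ a) (φ b) ↔ f ((a : ℤ) - (b : ℤ))) :
    ∃ c : ℕ, (c : ℝ) ≤ 11 * (Real.logb 2 ((G.adjMatrix ℝ).rank : ℝ) + 1) ^ 5 ∧
      (G.comap φ).Colorable (2 ^ c) := by
  classical
  obtain ⟨f, hf⟩ := hG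
  obtain ⟨c, h1, h2⟩ := final_hankel (fun a b : Fin n => decide (G.Adj (φ a) (φ b)))
    (Or.inr ⟨fun z => decide (f z), fun a b => by simp only [hf a b]⟩)
  refine ⟨c, h2.trans ?_, ?_⟩
  · have e : Pool.Agent.H630R2.LR.comm (fun a b : Fin n => decide (G.Adj (φ a) (φ b))) =
        (G.adjMatrix ℝ).submatrix φ φ := by
      ext a b
      simp [Pool.Agent.H630R2.LR.comm, SimpleGraph.adjMatrix_apply]
    have h3 : (Pool.Agent.H630R2.LR.comm (fun a b : Fin n => decide (G.Adj (φ a) (φ b)))).rank ≤
        (G.adjMatrix ℝ).rank := by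
      rw [e]
      exact Matrix.rank_submatrix_le _ _ _
    have h4 := logb_mono_nat h3
    have h5 := logb_nat_nonneg (Pool.Agent.H630R2.LR.comm (fun a b : Fin n => decide (G.Adj (φ a) (φ b)))).rank
    gcongr
  · refine colorable_of_proto (G.comap φ) ?_
    have e : (fun u v : Fin n => decide ((G.comap φ).Adj u v)) =
        fun a b : Fin n => decide (G.Adj (φ a) (φ b)) := by
      funext a b
      simp
    rw [e]
    exact h1

theorem result (V : Type) [Fintype V] (G : SimpleGraph V) [DecidableRel G.Adj] (t : ℕ)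
    (n : Fin t → ℕ) (φ : ∀ i, Fin (n i) → V) (hφ : ∀ v, ∃ i a, φ i a = v)
    (hG : ∀ i, ∃ f : ℤ → Prop, ∀ a b, G.Adj (φ i a) (φ i b) ↔ f ((a : ℤ) - (b : ℤ))) :
    Real.logb 2 (G.chromaticNumber.toNat : ℝ) ≤
      Real.logb 2 t + 11 * (Real.logb 2 ((G.adjMatrix ℝ).rank : ℝ) + 1) ^ 5 := by
  classical
  obtain ⟨B, hB⟩ : ∃ B, B = 11 * (Real.logb 2 ((G.adjMatrix ℝ).rank : ℝ) + 1) ^ 5 := ⟨_, rfl⟩
  have hB0 : 0 ≤ B := by
    rw [hB]
    have := logb_nat_nonneg (G.adjMatrix ℝ).rank
    positivity
  rw [← hB]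
  choose c hc hcol using fun i => piece G (n i) (φ i) (hG i)
  have hcM : ∀ i, c i ≤ ⌊B⌋₊ := fun i => Nat.le_floor (by rw [hB]; exact hc i)
  have hcol2 : ∀ i, Nonempty ((G.comap (φ i)).Coloring (Fin (2 ^ ⌊B⌋₊))) := fun i =>
    ((hcol i).mono (Nat.pow_le_pow_right (by norm_num) (hcM i)))
  choose i₀ a₀ ha₀ using hφ
  have hC : G.Coloring (Fin t × Fin (2 ^ ⌊B⌋₊)) := by
    refine SimpleGraph.Coloring.mk (fun v => (i₀ v, (hcol2 (i₀ v)).some (a₀ v))) ?_
    intro v w hvw heq
    have h1 : i₀ v = i₀ w := congrArg Prod.fst heq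
    have h2 : (hcol2 (i₀ v)).some (a₀ v) = (hcol2 (i₀ w)).some (a₀ w) := congrArg Prod.snd heq
    have key : ∀ (i j : Fin t) (a : Fin (n i)) (b : Fin (n j)), i = j → φ i a = v → φ j b = w →
        (hcol2 i).some a = (hcol2 j).some b → False := by
      intro i j a b hij ha hb h
      subst hij
      refine ((hcol2 i).some.valid (v := a) (w := b) ?_) h
      rw [SimpleGraph.comap_adj, ha, hb]
      exact hvw
    exact key (i₀ v) (i₀ w) (a₀ v) (a₀ w) h1 (ha₀ v) (ha₀ w) h2
  have h1 : G.Colorable (t * 2 ^ ⌊B⌋₊) := by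
    have h := hC.colorable
    rwa [Fintype.card_prod, Fintype.card_fin, Fintype.card_fin] at h
  have h2 : G.chromaticNumber.toNat ≤ t * 2 ^ ⌊B⌋₊ := by
    have h3 := ENat.toNat_le_toNat h1.chromaticNumber_le (ENat.natCast_ne_top _)
    rwa [ENat.toNat_natCast] at h3
  rcases Nat.eq_zero_or_pos G.chromaticNumber.toNat with h0 | h0
  · rw [h0, Nat.cast_zero, Real.logb_zero]
    have := logb_nat_nonneg t
    linarith
  · have ht : 0 < t := by
      rcases Nat.eq_zero_or_pos t with h | h
      · rw [h, zero_mul] at h2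
        omega
      · exact h
    have htr : (0 : ℝ) < t := by exact_mod_cast ht
    calc Real.logb 2 (G.chromaticNumber.toNat : ℝ) ≤ Real.logb 2 ((t * 2 ^ ⌊B⌋₊ : ℕ) : ℝ) :=
          logb_mono_nat h2
      _ = Real.logb 2 t + ⌊B⌋₊ := by
          push_cast
          rw [Real.logb_mul htr.ne' (by positivity), Real.logb_pow,
            Real.logb_self_eq_one (by norm_num), mul_one]
      _ ≤ _ := by linarith [Nat.floor_le hB0]

end Pool.Agent.Results.MP_3bd889_lc.ToeplitzGraphs
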