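import Pool.Agent.Q274.LR.Main
import Pool.Agent.Q274.LR.TW
import Pool.Agent.Q274.LR.Colour

set_option autoImplicit false

namespace Pool.Agent.Results.MP_3bd889_lc.TwinWidthLogRank

open Pool.Agent.H630R2.LR Pool.Agent.Y422.TW

/-- **Chromatic number, rank and twin-width.**  A graph of twin-width at most `w` whose adjacency
matrix has real rank `r` has chromatic number at most
`2 ^ (1 + 2 * ⌈log₂ (4 (w + 2) r + 3)⌉ * ⌈log₂ (r + 1)⌉)`. -/
theorem result {V : Type} [Fintype V] (G : SimpleGraph V) [DecidableRel G.Adj] (w : ℕ)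
    (hw : TwinWidthLE G w) :
    G.Colorable (2 ^ (1 + 2 * Nat.clog 2 (4 * (w + 2) * (G.adjMatrix ℝ).rank + 3) *
      Nat.clog 2 ((G.adjMatrix ℝ).rank + 1))) := by
  have hF : ∀ u v : V, decide (G.Adj u v) = true ↔ G.Adj (id u) (id v) := by
    intro u v
    simp
  have h := Pool.Agent.Q274.LR.proto_of_rect _ _
    (Pool.Agent.Q274.LR.rect_of_tww G w hw id id _ hF)
  have e1 : comm (fun u v : V => decide (G.Adj u v)) = G.adjMatrix ℝ := by
    ext u v
    show (if decide (G.Adj u v) = true then (1 : ℝ) else 0) = _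
    rw [SimpleGraph.adjMatrix_apply]
    simp
  rw [e1] at h
  have e : 2 * (2 * (w + 2)) * (G.adjMatrix ℝ).rank = 4 * (w + 2) * (G.adjMatrix ℝ).rank := by ring
  rw [e] at h
  exact Pool.Agent.Q274.LR.colorable_of_proto G (by simp) h

end Pool.Agent.Results.MP_3bd889_lc.TwinWidthLogRank
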